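import Mathlib

namespace Pool.Agent.H.MP_f310dc_lc
open Function

/-- abstract minion -/
structure Mn where
  obj : Type → Type
  map : ∀ {N N' : Type}, (N → N') → obj N → obj N'
  map_id : ∀ {N : Type} (f : obj N), map id f = f
  map_comp : ∀ {N N' N'' : Type} (α : N → N') (β : N' → N'') (f : obj N),
    map β (map α f) = map (β ∘ α) f

structure Cl extends Mn where
  pr : ∀ {N : Type}, N → obj N
  map_pr : ∀ {N N' : Type} (α : N → N') (x : N), map α (pr x) = pr (α x)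
  m : obj (Fin 3)
  m1 : ∀ {W : Type} (x y : W), map ![x, y, y] m = pr x
  m2 : ∀ {W : Type} (x y : W), map ![y, y, x] m = pr x
  j : obj (Fin 3)
  j1 : ∀ {W : Type} (x y : W), map ![x, x, y] j = pr x
  j2 : ∀ {W : Type} (x y : W), map ![x, y, x] j = pr x
  j3 : ∀ {W : Type} (x y : W), map ![y, x, x] j = pr x
  F : ∀ n : ℕ, obj (Fin (n + 2))
  Fs : ∀ {W : Type} (n : ℕ) (x : W) (u : Fin (n + 1) → W) (σ : Equiv.Perm (Fin (n + 1))),
    map (Fin.cons x (u ∘ σ) : Fin (n + 2) → W) (F n) = map (Fin.cons x u : Fin (n + 2) → W) (F n)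
  Fg : ∀ {W : Type} (n : ℕ) (x y : W),
    map (Fin.cons x (fun _ => y) : Fin (n + 2) → W) (F n) = pr y
  fin : ∀ N : Type, Finite N → Finite (obj N)

structure Alg (I : Cl) where
  W : Type
  fin : Finite W
  e : I.obj W → W
  law : ∀ x, e (I.pr x) = x

variable {I : Cl}

instance (B : Alg I) : Finite B.W := B.fin

def Hom (B S : Alg I) (k : B.W → S.W) : Prop := ∀ t, k (B.e t) = S.e (I.map k t)

lemma Hom.comp {B S T : Alg I} {k : B.W → S.W} {l : S.W → T.W} (hk : Hom B S k) (hl : Hom S T l) :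
    Hom B T (l ∘ k) := fun t => by
  rw [comp_apply, hk, hl, I.map_comp]

lemma Hom.symm {B S : Alg I} {k : B.W ≃ S.W} (hk : Hom B S k) : Hom S B k.symm := fun t => by
  apply k.injective
  rw [hk, I.map_comp]
  simp [I.map_id]

lemma Hom.op3 {B S : Alg I} {k : B.W → S.W} (hk : Hom B S k) (t : I.obj (Fin 3)) (a b c : B.W) :
    k (B.e (I.map ![a, b, c] t)) = S.e (I.map ![k a, k b, k c] t) := by
  rw [hk, I.map_comp]
  congr 2
  funext i; fin_cases i <;> rfl

def Closed (B : Alg I) (C : Set B.W) : Prop := ∀ s : I.obj C, B.e (I.map Subtype.val s) ∈ C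

def sub (B : Alg I) (C : Set B.W) (hC : Closed B C) : Alg I where
  W := C
  fin := inferInstance
  e s := ⟨B.e (I.map Subtype.val s), hC s⟩
  law x := Subtype.ext (by simp [I.map_pr, B.law])

lemma hom_val (B : Alg I) (C : Set B.W) (hC : Closed B C) :
    Hom (sub B C hC) B Subtype.val := fun _ => rfl

lemma hom_cod {B S : Alg I} {k : B.W → S.W} (hk : Hom B S k) {C : Set S.W} (hC : Closed S C)
    (k' : B.W → C) (h : ∀ b, (k' b).1 = k b) : Hom B (sub S C hC) k' := fun t => by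
  apply Subtype.ext
  rw [h, hk]
  show _ = S.e (I.map Subtype.val (I.map k' t))
  rw [I.map_comp]
  congr 2
  funext b; exact (h b).symm

lemma closed_range {B S : Alg I} {k : B.W → S.W} (hk : Hom B S k) : Closed S (Set.range k) := by
  intro s
  choose σ hσ using fun c : Set.range k => c.2
  refine ⟨B.e (I.map σ s), ?_⟩
  rw [hk, I.map_comp]
  congr 2
  funext c; exact hσ c

lemma closed_pre {B S : Alg I} {k : B.W → S.W} (hk : Hom B S k) {C : Set S.W} (hC : Closed S C) :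
    Closed B (k ⁻¹' C) := by
  intro s
  show k _ ∈ C
  rw [hk, I.map_comp]
  have := hC (I.map (fun b : (k ⁻¹' C) => (⟨k b.1, b.2⟩ : C)) s)
  rwa [I.map_comp] at this

lemma closed_inter {B : Alg I} {C D : Set B.W} (hC : Closed B C) (hD : Closed B D) :
    Closed B (C ∩ D) := by
  intro s
  have h1 := hC (I.map (fun b : ↥(C ∩ D) => (⟨b.1, b.2.1⟩ : C)) s)
  have h2 := hD (I.map (fun b : ↥(C ∩ D) => (⟨b.1, b.2.2⟩ : D)) s)
  rw [I.map_comp] at h1 h2
  exact ⟨h1, h2⟩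

/-- factor a hom through a surjective hom -/
lemma hom_factor {B S Q : Alg I} {k : B.W → S.W} (hk : Hom B S k) (hs : Surjective k)
    {q : B.W → Q.W} (hq : Hom B Q q) (h : ∀ a b, k a = k b → q a = q b) :
    ∃ l : S.W → Q.W, Hom S Q l ∧ l ∘ k = q := by
  obtain ⟨σ, hσ⟩ := hs.hasRightInverse
  have e1 : (q ∘ σ) ∘ k = q := funext fun b => h _ _ (hσ _)
  refine ⟨q ∘ σ, fun t => ?_, e1⟩
  have : t = I.map k (I.map σ t) := by rw [I.map_comp, hσ.comp_eq_id, I.map_id]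
  conv_lhs => rw [this, ← hk]
  have := congrFun e1 (B.e (I.map σ t))
  rw [comp_apply] at this
  rw [this, hq, I.map_comp]

/-- the join of two kernels -/
lemma exists_quo {B S₁ S₂ : Alg I} {k₁ : B.W → S₁.W} {k₂ : B.W → S₂.W} (h₁ : Hom B S₁ k₁)
    (h₂ : Hom B S₂ k₂) : ∃ (Q : Alg I) (q : B.W → Q.W), Hom B Q q ∧ Surjective q ∧
      ∀ a b, q a = q b ↔ ∃ c, k₁ a = k₁ c ∧ k₂ c = k₂ b := by
  let r : B.W → B.W → Prop := fun a b => ∃ c, k₁ a = k₁ c ∧ k₂ c = k₂ b
  have hsymm : ∀ a b, r a b → r b a := by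
    rintro a b ⟨c, h1, h2⟩
    refine ⟨B.e (I.map ![a, c, b] I.m), ?_, ?_⟩
    · rw [h₁.op3, h1, I.m2, S₁.law]
    · rw [h₂.op3, h2, I.m1, S₂.law]
  have htrans : ∀ a b c, r a b → r b c → r a c := by
    rintro a b c ⟨u, h1, h2⟩ ⟨v, h3, h4⟩
    obtain ⟨w, h5, h6⟩ := hsymm v u ⟨b, h3.symm, h2.symm⟩
    exact ⟨w, h1.trans h5, h6.trans h4⟩
  let st : Setoid B.W := ⟨r, ⟨fun a => ⟨a, rfl, rfl⟩, fun {a b} => hsymm a b,
    fun {a b c} => htrans a b c⟩⟩
  refine ⟨⟨Quotient st, inferInstance, fun s => Quotient.mk st (B.e (I.map Quotient.out s)),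
    fun x => by simp [I.map_pr, B.law]⟩, Quotient.mk st, fun t => ?_, Quotient.mk_surjective,
    fun a b => Quotient.eq⟩
  apply Quotient.sound
  have : ∀ b, r b (Quotient.out (Quotient.mk st b)) := fun b => hsymm _ _ (Quotient.mk_out (s := st) b)
  choose c hc1 hc2 using this
  refine ⟨B.e (I.map c t), ?_, ?_⟩
  · rw [h₁, h₁, I.map_comp]
    congr 2
    funext b; exact hc1 b
  · rw [h₂, h₂, I.map_comp, I.map_comp, I.map_comp]
    congr 2
    funext b; exact hc2 b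

lemma helly {W : Type} [Finite W] (μ : W → W → W → W) (𝓕 : Set (Set W)) (w : W)
    (ab : ∀ K ∈ 𝓕, ∀ a ∈ K, ∀ b ∈ K, ∀ c, μ a b c ∈ K ∧ μ a c b ∈ K ∧ μ c a b ∈ K)
    (pw : ∀ K ∈ 𝓕, ∀ L ∈ 𝓕, ∃ b, b ∈ K ∧ b ∈ L) : ∃ b, ∀ K ∈ 𝓕, b ∈ K := by
  have key : ∀ T : Set (Set W), T.Finite → T ⊆ 𝓕 → ∀ K ∈ 𝓕, ∀ L ∈ 𝓕,
      ∃ b, b ∈ K ∧ b ∈ L ∧ ∀ M ∈ T, b ∈ M := by
    intro T hT
    induction T, hT using Set.Finite.induction_on with
    | empty =>
      intro _ K hK L hL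
      obtain ⟨b, h1, h2⟩ := pw K hK L hL
      exact ⟨b, h1, h2, fun _ h => h.elim⟩
    | @insert P T _ _ ih =>
      intro hs K hK L hL
      have hP : P ∈ 𝓕 := hs (Set.mem_insert _ _)
      have hT : T ⊆ 𝓕 := fun M hM => hs (Set.mem_insert_of_mem _ hM)
      obtain ⟨a1, h1, h2, h3⟩ := ih hT L hL P hP
      obtain ⟨a2, h4, h5, h6⟩ := ih hT K hK P hP
      obtain ⟨a3, h7, h8, h9⟩ := ih hT K hK L hL
      refine ⟨μ a1 a2 a3, (ab K hK a2 h4 a3 h7 a1).2.2, (ab L hL a1 h1 a3 h8 a2).2.1, ?_⟩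
      rintro M (rfl | hM)
      · exact (ab M hP a1 h2 a2 h5 a3).1
      · exact (ab M (hT hM) a1 (h3 M hM) a2 (h6 M hM) a3).1
  rcases 𝓕.eq_empty_or_nonempty with rfl | ⟨K, hK⟩
  · exact ⟨w, fun _ h => h.elim⟩
  · obtain ⟨b, -, -, hb⟩ := key 𝓕 (Set.toFinite _) le_rfl K hK K hK
    exact ⟨b, hb⟩

lemma exists_enum {W : Type} [Finite W] (K : Set W) (hK : K.Nonempty) :
    ∃ (n : ℕ) (u : Fin (n + 1) → W), Injective u ∧ Set.range u = K := by
  haveI : Nonempty K := hK.to_subtype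
  obtain ⟨n, hn⟩ : ∃ n, Nat.card K = n + 1 := Nat.exists_eq_succ_of_ne_zero Nat.card_pos.ne'
  let e : Fin (n + 1) ≃ K := (Finite.equivFinOfCardEq hn).symm
  refine ⟨n, Subtype.val ∘ e, Subtype.val_injective.comp e.injective, ?_⟩
  rw [Set.range_comp, e.surjective.range_eq, Set.image_univ, Subtype.range_coe]

open Classical in
noncomputable def sym (B : Alg I) (x : B.W) (K : Set B.W) : B.W :=
  if h : K.Nonempty then
    B.e (I.map (Fin.cons x (exists_enum K h).choose_spec.choose : Fin (_ + 2) → B.W) (I.F _))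
  else x

lemma sym_eq (B : Alg I) (x : B.W) (K : Set B.W) (n : ℕ) (u : Fin (n + 1) → B.W)
    (hu : Injective u) (hr : Set.range u = K) :
    sym B x K = B.e (I.map (Fin.cons x u : Fin (n + 2) → B.W) (I.F n)) := by
  have h : K.Nonempty := hr ▸ Set.range_nonempty u
  have key : ∀ (n' : ℕ) (u' : Fin (n' + 1) → B.W), Injective u' → Set.range u' = K →
      I.map (Fin.cons x u' : Fin (n' + 2) → B.W) (I.F n') =
        I.map (Fin.cons x u : Fin (n + 2) → B.W) (I.F n) := by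
    intro n' u' hu' hr'
    let e : Fin (n' + 1) ≃ Fin (n + 1) :=
      (Equiv.ofInjective u' hu').trans ((Equiv.setCongr (hr'.trans hr.symm)).trans
        (Equiv.ofInjective u hu).symm)
    have he : u ∘ e = u' := by
      funext i
      simp [e, Equiv.apply_ofInjective_symm]
    obtain rfl : n' = n := by simpa using Fintype.card_congr e
    rw [← he, I.Fs]
  rw [sym, dif_pos h, key _ _ (exists_enum K h).choose_spec.choose_spec.1
    (exists_enum K h).choose_spec.choose_spec.2]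

lemma sym_const {B S : Alg I} {k : B.W → S.W} (hk : Hom B S k) (x : B.W) {K : Set B.W}
    (hK : K.Nonempty) {s : S.W} (h : ∀ b ∈ K, k b = s) : k (sym B x K) = s := by
  obtain ⟨n, u, hu, hr⟩ := exists_enum K hK
  rw [sym_eq B x K n u hu hr, hk, I.map_comp]
  have : k ∘ (Fin.cons x u : Fin (n + 2) → B.W) = Fin.cons (k x) (fun _ => s) := by
    funext i
    refine Fin.cases rfl (fun i => ?_) i
    exact h _ (hr ▸ Set.mem_range_self i)
  rw [this, I.Fg, S.law]

lemma sym_inj {B S : Alg I} {k : B.W → S.W} (hk : Hom B S k) (hi : Injective k) (x : B.W)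
    {K : Set B.W} (hK : K.Nonempty) : k (sym B x K) = sym S (k x) (k '' K) := by
  obtain ⟨n, u, hu, hr⟩ := exists_enum K hK
  rw [sym_eq B x K n u hu hr, hk, I.map_comp,
    sym_eq S (k x) (k '' K) n (k ∘ u) (hi.comp hu) (by rw [Set.range_comp, hr])]
  congr 2
  funext i
  exact Fin.cases rfl (fun i => rfl) i

end Pool.Agent.H.MP_f310dc_lc
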