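import Pool.Agent.H.MP_f310dc_lc.A

namespace Pool.Agent.H.MP_f310dc_lc
open Function

variable {I : Cl} {M : Mn}

def Supp (M : Mn) {B : Type} (g : M.obj B) (C : Set B) : Prop :=
  ∀ (Y : Type) (α β : B → Y), (∀ c ∈ C, α c = β c) → M.map α g = M.map β g

lemma Supp.inter {B : Type} {g : M.obj B} {C D : Set B} (hC : Supp M g C) (hD : Supp M g D) :
    Supp M g (C ∩ D) := by
  classical
  intro Y α β h
  rw [hC Y α (fun b => if b ∈ C then α b else β b) (fun c hc => by simp [hc])]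
  apply hD
  intro c hc
  by_cases h' : c ∈ C
  · simp [h', h c ⟨h', hc⟩]
  · simp [h']

lemma supp_map {B S : Type} (g : M.obj B) (k : B → S) : Supp M (M.map k g) (Set.range k) := by
  intro Y α β h
  rw [M.map_comp, M.map_comp]
  congr 1
  funext b; exact h _ ⟨b, rfl⟩

lemma supp_pre {B S : Type} (g : M.obj B) (k : B ≃ S) {C : Set S} (h : Supp M (M.map k g) C) :
    Supp M g (k ⁻¹' C) := by
  intro Y α β hab
  have := h Y (α ∘ k.symm) (β ∘ k.symm) (fun c hc => hab _ (by simpa using hc))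
  rw [M.map_comp, M.map_comp] at this
  simpa [comp_assoc] using this

lemma exists_retr (hM : ∀ (B : Type) (g : M.obj B), ¬ Supp M g ∅) {B : Type} {g : M.obj B}
    {C : Set B} (h : Supp M g C) : ∃ ρ : B → C, ∀ c : C, ρ c.1 = c := by
  classical
  rcases C.eq_empty_or_nonempty with rfl | ⟨c0, hc0⟩
  · exact (hM B g h).elim
  · exact ⟨fun b => if hb : b ∈ C then ⟨b, hb⟩ else ⟨c0, hc0⟩, fun c => by simp⟩

def Natl (I : Cl) (M : Mn) (n : ℕ) (φ : ∀ B : Alg I, M.obj B.W → B.W) : Prop :=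
  ∀ (B S : Alg I) (k : B.W → S.W), Hom B S k → Nat.card B.W ≤ n → Nat.card S.W ≤ n →
    ∀ g, k (φ B g) = φ S (M.map k g)

def KK (M : Mn) (n : ℕ) (φ : ∀ B : Alg I, M.obj B.W → B.W) (B : Alg I) (g : M.obj B.W) :
    Set B.W :=
  {b | ∀ (S : Alg I) (k : B.W → S.W), Hom B S k → Nat.card S.W ≤ n → k b = φ S (M.map k g)}

lemma card_sub_le (B : Alg I) (C : Set B.W) (hC : Closed B C) :
    Nat.card (sub B C hC).W ≤ Nat.card B.W :=
  Nat.card_le_card_of_injective (f := (Subtype.val : C → B.W)) Subtype.val_injective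

lemma card_sub_lt (B : Alg I) (C : Set B.W) (hC : Closed B C) (h : C ≠ Set.univ) :
    Nat.card (sub B C hC).W < Nat.card B.W := by
  have := Set.ncard_lt_card h
  exact this

lemma KK_nonempty {n : ℕ} {φ : ∀ B : Alg I, M.obj B.W → B.W} (hφ : Natl I M n φ) (B : Alg I)
    (g : M.obj B.W) : (KK M n φ B g).Nonempty := by
  let 𝓕 : Set (Set B.W) := {K | ∃ (S : Alg I) (k : B.W → S.W), Hom B S k ∧ Surjective k ∧
    Nat.card S.W ≤ n ∧ K = {b | k b = φ S (M.map k g)}}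
  obtain ⟨b, hb⟩ := helly (fun a b c => B.e (I.map ![a, b, c] I.j)) 𝓕 (φ B g) (by
    rintro K ⟨S, k, hk, -, -, rfl⟩ a ha b hb c
    simp only [Set.mem_setOf_eq] at ha hb ⊢
    rw [hk.op3, hk.op3, hk.op3, ha, hb, I.j1, I.j2, I.j3, S.law]
    exact ⟨rfl, rfl, rfl⟩) (by
    rintro K ⟨S₁, k₁, h₁, s₁, c₁, rfl⟩ L ⟨S₂, k₂, h₂, s₂, c₂, rfl⟩
    obtain ⟨Q, q, hq, sq, hqq⟩ := exists_quo h₁ h₂
    obtain ⟨l₁, hl₁, e₁⟩ := hom_factor h₁ s₁ hq (fun a b h => (hqq a b).2 ⟨b, h, rfl⟩)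
    obtain ⟨l₂, hl₂, e₂⟩ := hom_factor h₂ s₂ hq (fun a b h => (hqq a b).2 ⟨a, rfl, h⟩)
    have cQ : Nat.card Q.W ≤ n := by
      refine le_trans (Nat.card_le_card_of_surjective l₁ ?_) c₁
      exact Surjective.of_comp (g := k₁) (e₁ ▸ sq)
    obtain ⟨b₁, hb₁⟩ := s₁ (φ S₁ (M.map k₁ g))
    obtain ⟨b₂, hb₂⟩ := s₂ (φ S₂ (M.map k₂ g))
    have q1 : q b₁ = φ Q (M.map q g) := by
      rw [← e₁, comp_apply, hb₁, hφ _ _ _ hl₁ c₁ cQ, M.map_comp]
    have q2 : q b₂ = φ Q (M.map q g) := by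
      rw [← e₂, comp_apply, hb₂, hφ _ _ _ hl₂ c₂ cQ, M.map_comp]
    obtain ⟨c, hc1, hc2⟩ := (hqq b₁ b₂).1 (q1.trans q2.symm)
    exact ⟨c, hc1.symm.trans hb₁, hc2.trans hb₂⟩)
  refine ⟨b, fun S k hk cS => ?_⟩
  have hC := closed_range hk
  have hk' : Hom B (sub S _ hC) (Set.rangeFactorization k) := hom_cod hk hC _ (fun _ => rfl)
  have cC : Nat.card (sub S _ hC).W ≤ n := (card_sub_le S _ hC).trans cS
  have h1 := hb _ ⟨sub S _ hC, _, hk', Set.rangeFactorization_surjective, cC, rfl⟩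
  have h2 := hφ _ _ _ (hom_val S _ hC) cC cS (M.map (Set.rangeFactorization k) g)
  rw [M.map_comp] at h2
  exact (congrArg Subtype.val h1).trans h2

lemma KK_iso {n : ℕ} {φ : ∀ B : Alg I, M.obj B.W → B.W} {B S : Alg I} (k : B.W ≃ S.W)
    (hk : Hom B S k) (g : M.obj B.W) : k '' KK M n φ B g = KK M n φ S (M.map k g) := by
  ext s
  constructor
  · rintro ⟨b, hb, rfl⟩ T l hl cT
    rw [M.map_comp]
    exact hb T (l ∘ k) (hk.comp hl) cT
  · intro hs
    refine ⟨k.symm s, fun T l hl cT => ?_, by simp⟩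
    have := hs T (l ∘ k.symm) (hk.symm.comp hl) cT
    rw [M.map_comp] at this
    simpa [comp_assoc] using this

def Red (M : Mn) (B : Alg I) (g : M.obj B.W) : Prop :=
  ∃ C : Set B.W, Closed B C ∧ C ≠ Set.univ ∧ Supp M g C

lemma step (hM : ∀ (B : Type) (g : M.obj B), ¬ Supp M g ∅) {n : ℕ}
    (x : ∀ B : Alg I, M.obj B.W → B.W)
    (hx : ∀ (B S : Alg I) (k : B.W ≃ S.W), Hom B S k → Nat.card B.W ≤ n + 1 →
      ∀ g, k (x B g) = x S (M.map k g))
    {φ : ∀ B : Alg I, M.obj B.W → B.W} (hφ : Natl I M n φ) :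
    ∃ ψ : ∀ B : Alg I, M.obj B.W → B.W, Natl I M (n + 1) ψ := by
  classical
  -- value in the reducible case
  have hred : ∀ (B : Alg I) (g : M.obj B.W), Nat.card B.W ≤ n + 1 → Red M B g → ∃ b : B.W,
      ∀ (C : Set B.W) (hC : Closed B C), C ≠ Set.univ → Supp M g C → ∀ ρ : B.W → C,
        (∀ c : C, ρ c.1 = c) → b = (φ (sub B C hC) (M.map ρ g)).1 := by
    rintro B g cB ⟨C, hC, nC, sC⟩
    obtain ⟨ρ, hρ⟩ := exists_retr hM sC
    refine ⟨(φ (sub B C hC) (M.map ρ g)).1, fun D hD nD sD τ hτ => ?_⟩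
    have hE := closed_inter hC hD
    have sE := sC.inter sD
    obtain ⟨μ, hμ⟩ := exists_retr hM sE
    have cC : Nat.card (sub B C hC).W ≤ n := Nat.lt_succ_iff.1 ((card_sub_lt B C hC nC).trans_le cB)
    have cD : Nat.card (sub B D hD).W ≤ n := Nat.lt_succ_iff.1 ((card_sub_lt B D hD nD).trans_le cB)
    have cE : Nat.card (sub B _ hE).W ≤ n := Nat.lt_succ_iff.1 ((card_sub_lt B _ hE
      (fun h => nC (Set.eq_univ_of_univ_subset (h ▸ Set.inter_subset_left)))).trans_le cB)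
    have a1 := hφ (sub B _ hE) (sub B C hC) (fun b => ⟨b.1, b.2.1⟩)
      (hom_cod (hom_val B _ hE) hC _ (fun _ => rfl)) cE cC (M.map μ g)
    have a2 := hφ (sub B _ hE) (sub B D hD) (fun b => ⟨b.1, b.2.2⟩)
      (hom_cod (hom_val B _ hE) hD _ (fun _ => rfl)) cE cD (M.map μ g)
    rw [M.map_comp] at a1 a2
    have b1 := sE _ ρ ((fun b : ↥(C ∩ D) => (⟨b.1, b.2.1⟩ : C)) ∘ μ) (fun c hc => by
        have := hμ ⟨c, hc⟩
        have h2 := hρ ⟨c, hc.1⟩
        simp only at this h2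
        simp [this, h2])
    have b2 := sE _ τ ((fun b : ↥(C ∩ D) => (⟨b.1, b.2.2⟩ : D)) ∘ μ) (fun c hc => by
        have := hμ ⟨c, hc⟩
        have h2 := hτ ⟨c, hc.2⟩
        simp only at this h2
        simp [this, h2])
    have c1 : (φ (sub B _ hE) (M.map μ g)).1 = _ := congrArg (fun z : C => z.1) a1
    have c2 : (φ (sub B _ hE) (M.map μ g)).1 = _ := congrArg (fun z : D => z.1) a2
    exact (congrArg (fun z => (φ (sub B C hC) z).1) b1).trans
      ((c1.symm.trans c2).trans (congrArg (fun z => (φ (sub B D hD) z).1) b2).symm)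
  have hred' : ∀ (B : Alg I) (g : M.obj B.W), ∃ b : B.W, Nat.card B.W ≤ n + 1 → Red M B g →
      ∀ (C : Set B.W) (hC : Closed B C), C ≠ Set.univ → Supp M g C → ∀ ρ : B.W → C,
        (∀ c : C, ρ c.1 = c) → b = (φ (sub B C hC) (M.map ρ g)).1 := by
    intro B g
    by_cases h : Nat.card B.W ≤ n + 1 ∧ Red M B g
    · obtain ⟨b, hb⟩ := hred B g h.1 h.2
      exact ⟨b, fun _ _ => hb⟩
    · exact ⟨x B g, fun h1 h2 => (h ⟨h1, h2⟩).elim⟩
  choose v hv using hred'
  let ψ : ∀ B : Alg I, M.obj B.W → B.W := fun B g =>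
    if Nat.card B.W ≤ n then φ B g else if Red M B g then v B g else sym B (x B g) (KK M n φ B g)
  -- small source
  have h1 : ∀ (B S : Alg I) (k : B.W → S.W), Hom B S k → Nat.card B.W ≤ n →
      Nat.card S.W ≤ n + 1 → ∀ g, k (φ B g) = ψ S (M.map k g) := by
    intro B S k hk cB cS g
    by_cases cS' : Nat.card S.W ≤ n
    · simp only [ψ, if_pos cS']
      exact hφ B S k hk cB cS' g
    · have hC := closed_range hk
      have nC : Set.range k ≠ Set.univ := fun h => cS'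
        ((Nat.card_le_card_of_surjective k (Set.range_eq_univ.1 h)).trans cB)
      have sC := supp_map g k
      obtain ⟨ρ, hρ⟩ := exists_retr hM sC
      have hR : Red M S (M.map k g) := ⟨_, hC, nC, sC⟩
      simp only [ψ, if_neg cS', if_pos hR]
      rw [hv S _ cS hR _ hC nC sC ρ hρ, M.map_comp]
      have hk' : Hom B (sub S _ hC) (ρ ∘ k) := hom_cod hk hC _ (fun b =>
        congrArg Subtype.val (hρ ⟨k b, b, rfl⟩))
      have := hφ _ _ _ hk' cB (Nat.lt_succ_iff.1 ((card_sub_lt S _ hC nC).trans_le cS)) g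
      rw [← this]
      exact (congrArg Subtype.val (hρ ⟨k _, _, rfl⟩)).symm
  refine ⟨ψ, fun B S k hk cB cS g => ?_⟩
  by_cases cB' : Nat.card B.W ≤ n
  · simp only [ψ, if_pos cB']
    exact h1 B S k hk cB' cS g
  by_cases hR : Red M B g
  · obtain ⟨C, hC, nC, sC⟩ := id hR
    obtain ⟨ρ, hρ⟩ := exists_retr hM sC
    have e : ψ B g = (φ (sub B C hC) (M.map ρ g)).1 := by
      simp only [ψ, if_neg cB', if_pos hR]
      exact hv B g cB hR C hC nC sC ρ hρ
    have := h1 (sub B C hC) S (k ∘ Subtype.val) ((hom_val B C hC).comp hk)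
      (Nat.lt_succ_iff.1 ((card_sub_lt B C hC nC).trans_le cB)) cS (M.map ρ g)
    rw [M.map_comp] at this
    rw [e]
    exact this.trans (congrArg (ψ S) (sC _ ((k ∘ Subtype.val) ∘ ρ) k (fun c hc =>
      congrArg (k ∘ Subtype.val) (hρ ⟨c, hc⟩))))
  have e : ψ B g = sym B (x B g) (KK M n φ B g) := by
    simp only [ψ, if_neg cB', if_neg hR]
  have hK := KK_nonempty hφ B g
  by_cases hs : Surjective k
  · by_cases cS' : Nat.card S.W ≤ n
    · rw [e, sym_const hk _ hK (fun b hb => hb S k hk cS')]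
      simp only [ψ, if_pos cS']
    · have hb : Bijective k := by
        rw [Nat.bijective_iff_surjective_and_card]
        exact ⟨hs, by omega⟩
      let k' := Equiv.ofBijective k hb
      have hR' : ¬ Red M S (M.map k g) := by
        rintro ⟨C, hC, nC, sC⟩
        refine hR ⟨k ⁻¹' C, closed_pre hk hC, fun h => nC ?_, supp_pre g k' sC⟩
        rw [← Set.image_preimage_eq C hs, h, Set.image_univ, hs.range_eq]
      simp only [ψ, if_neg cS', if_neg hR', if_neg cB', if_neg hR]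
      rw [sym_inj hk hb.1 _ hK]
      have e1 := hx B S k' hk cB g
      have e2 := KK_iso (n := n) (φ := φ) k' hk g
      exact congrArg₂ (sym S) e1 e2
  · have hC := closed_range hk
    have nC : Set.range k ≠ Set.univ := fun h => hs (Set.range_eq_univ.1 h)
    have cC : Nat.card (sub S _ hC).W ≤ n :=
      Nat.lt_succ_iff.1 ((card_sub_lt S _ hC nC).trans_le cS)
    have hk' : Hom B (sub S _ hC) (Set.rangeFactorization k) := hom_cod hk hC _ (fun _ => rfl)
    have a1 := sym_const hk' (x B g) hK (fun b hb => hb _ _ hk' cC)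
    have a2 := h1 _ S _ (hom_val S _ hC) cC cS (M.map (Set.rangeFactorization k) g)
    rw [M.map_comp] at a2
    rw [e]
    exact (congrArg Subtype.val a1).trans a2

theorem core (hM : ∀ (B : Type) (g : M.obj B), ¬ Supp M g ∅) (n0 : ℕ)
    (x : ∀ B : Alg I, M.obj B.W → B.W)
    (hx : ∀ (B S : Alg I) (k : B.W ≃ S.W), Hom B S k → Nat.card B.W ≤ n0 →
      ∀ g, k (x B g) = x S (M.map k g)) :
    ∃ φ : ∀ B : Alg I, M.obj B.W → B.W, Natl I M n0 φ := by
  have : ∀ n ≤ n0, ∃ φ : ∀ B : Alg I, M.obj B.W → B.W, Natl I M n φ := by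
    intro n
    induction n with
    | zero =>
      refine fun _ => ⟨x, fun B S k _ cB _ g => ?_⟩
      haveI : Nonempty B.W := ⟨x B g⟩
      exact absurd cB (by simpa using Nat.card_pos.ne')
    | succ n ih =>
      intro h
      obtain ⟨φ, hφ⟩ := ih (by omega)
      exact step hM x (fun B S k hk cB => hx B S k hk (cB.trans h)) hφ
  exact this n0 le_rfl

/-! representatives -/

def J (I : Cl) (n0 : ℕ) : Type :=
  Σ k : Fin (n0 + 1), {e : I.obj (Fin (k + 1)) → Fin (k + 1) // ∀ x, e (I.pr x) = x}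

instance (n0 : ℕ) : Finite (J I n0) := by
  haveI := fun k : Fin (n0 + 1) => I.fin (Fin (k + 1)) inferInstance
  unfold J
  infer_instance

instance (n0 : ℕ) : Nonempty (J I n0) :=
  ⟨⟨0, fun _ => 0, fun x => Subsingleton.elim (α := Fin 1) _ _⟩⟩

def Rep {n0 : ℕ} (j : J I n0) : Alg I := ⟨Fin (j.1 + 1), inferInstance, j.2.1, j.2.2⟩

def Aut (B : Alg I) : Subgroup (Equiv.Perm B.W) where
  carrier := {k | Hom B B k}
  mul_mem' ha hb := Hom.comp hb ha
  one_mem' := fun t => by simp [I.map_id]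
  inv_mem' ha := Hom.symm ha

lemma exists_rep {n0 : ℕ} (B : Alg I) [Nonempty B.W] (cB : Nat.card B.W ≤ n0) :
    ∃ (j : J I n0) (α : B.W ≃ (Rep j).W), Hom B (Rep j) α := by
  obtain ⟨k, hk⟩ : ∃ k, Nat.card B.W = k + 1 := Nat.exists_eq_succ_of_ne_zero Nat.card_pos.ne'
  let α : B.W ≃ Fin (k + 1) := Finite.equivFinOfCardEq hk
  refine ⟨⟨⟨k, by omega⟩, fun s => α (B.e (I.map α.symm s)), fun x => by simp [I.map_pr, B.law]⟩,
    α, fun t => ?_⟩
  show α _ = α (B.e (I.map α.symm (I.map α t)))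
  rw [I.map_comp]
  simp [I.map_id]

theorem core2 (hM : ∀ (B : Type) (g : M.obj B), ¬ Supp M g ∅) (n0 : ℕ)
    (Y : ∀ j : J I n0, M.obj (Rep j).W → (Rep j).W)
    (hY : ∀ (j : J I n0) (γ : Aut (Rep j)) (h : M.obj (Rep j).W),
      Y j (M.map γ.1 h) = γ.1 (Y j h)) :
    ∃ φ : ∀ B : Alg I, M.obj B.W → B.W, Natl I M n0 φ := by
  classical
  have ne : ∀ (B : Type) (g : M.obj B), Nonempty B := by
    intro B g
    by_contra h
    refine hM B g (fun Y α β _ => ?_)
    congr 1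
    funext b; exact (h ⟨b⟩).elim
  let jj : Alg I → J I n0 := fun B =>
    Classical.epsilon (fun j => ∃ α : B.W ≃ (Rep j).W, Hom B (Rep j) α)
  have jj_eq : ∀ (B S : Alg I) (k : B.W ≃ S.W), Hom B S k → jj B = jj S := by
    intro B S k hk
    simp only [jj]
    congr 1
    funext j
    exact propext ⟨fun ⟨α, hα⟩ => ⟨k.symm.trans α, hk.symm.comp hα⟩,
      fun ⟨α, hα⟩ => ⟨k.trans α, hk.comp hα⟩⟩
  have jj_spec : ∀ (B : Alg I) [Nonempty B.W], Nat.card B.W ≤ n0 →
      ∃ α : B.W ≃ (Rep (jj B)).W, Hom B (Rep (jj B)) α := fun B _ cB =>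
    Classical.epsilon_spec (exists_rep B cB)
  have ex : ∀ (B : Alg I) (g : M.obj B.W), ∃ b : B.W, Nat.card B.W ≤ n0 → ∀ j, j = jj B →
      ∀ α : B.W ≃ (Rep j).W, Hom B (Rep j) α → α b = Y j (M.map α g) := by
    intro B g
    haveI := ne _ g
    by_cases cB : Nat.card B.W ≤ n0
    · obtain ⟨α, hα⟩ := jj_spec B cB
      refine ⟨α.symm (Y _ (M.map α g)), fun _ j hj β hβ => ?_⟩
      subst hj
      have := hY _ ⟨α.symm.trans β, hα.symm.comp hβ⟩ (M.map α g)
      rw [M.map_comp] at this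
      simpa [comp_assoc] using this.symm
    · exact ⟨Classical.arbitrary _, fun h => (cB h).elim⟩
  choose x hx using ex
  refine core hM n0 x (fun B S k hk cB g => ?_)
  haveI := ne _ (M.map k g)
  have cS : Nat.card S.W ≤ n0 := (Nat.card_congr k) ▸ cB
  obtain ⟨α, hα⟩ := jj_spec S cS
  apply α.injective
  rw [hx S _ cS _ rfl α hα, M.map_comp]
  exact hx B g cB _ (jj_eq B S k hk).symm (k.trans α) (hk.comp hα)

end Pool.Agent.H.MP_f310dc_lc
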