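import Mathlib

namespace Pool.Agent.H.MP_f310dc_lc

/-- A relational structure with finite (possibly empty) domain and finitely many relations. -/
structure Str where
  X : Type
  fin : Finite X
  ι : Type
  finι : Finite ι
  ar : ι → ℕ
  rel : ∀ i, Set (Fin (ar i) → X)

/-- pp-formulas in the signature of `A` with free variables in `V`. -/
inductive PP (A : Str) : Type → Type 1
  | rel {V : Type} (i : A.ι) (v : Fin (A.ar i) → V) : PP A V
  | eq {V : Type} (a b : V) : PP A V
  | tru {V : Type} : PP A V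
  | and {V : Type} : PP A V → PP A V → PP A V
  | ex {V : Type} : PP A (Option V) → PP A V

/-- Satisfaction of a pp-formula in `A` by an assignment. -/
def PP.Sat {A : Str} : ∀ {V : Type}, PP A V → (V → A.X) → Prop
  | _, .rel i v, s => s ∘ v ∈ A.rel i
  | _, .eq a b, s => s a = s b
  | _, .tru, _ => True
  | _, .and φ ψ, s => φ.Sat s ∧ ψ.Sat s
  | _, .ex φ, s => ∃ x, φ.Sat (fun o => o.elim x s)

/-- `A` pp-constructs `B`: the structure with domain defined by `φ` (variables in a finite set `V`)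
and relations defined by `ψ i` is homomorphically equivalent to `B`. -/
def PPC (A B : Str) : Prop :=
  ∃ (V : Type) (_ : Finite V) (φ : PP A V) (ψ : ∀ i : B.ι, PP A (Fin (B.ar i) × V)),
    (∃ h : {s : V → A.X // φ.Sat s} → B.X, ∀ (i : B.ι) (t : Fin (B.ar i) → {s // φ.Sat s}),
      (ψ i).Sat (fun p => (t p.1).1 p.2) → h ∘ t ∈ B.rel i) ∧
    (∃ h : B.X → {s : V → A.X // φ.Sat s}, ∀ (i : B.ι) (t : Fin (B.ar i) → B.X),
      t ∈ B.rel i → (ψ i).Sat (fun p => (h (t p.1)).1 p.2))

/-- pp-interconstructible -/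
def Inter (A B : Str) : Prop := PPC A B ∧ PPC B A

/-- `f : A ^ N → A` is a polymorphism (a homomorphism from the power `A ^ N` to `A`). -/
def IsPol (A : Str) {N : Type} (f : (N → A.X) → A.X) : Prop :=
  ∀ (i : A.ι) (r : N → Fin (A.ar i) → A.X), (∀ n, r n ∈ A.rel i) →
    (fun j => f (fun n => r n j)) ∈ A.rel i

/-- Condition (M). -/
def CondM (A : Str) : Prop :=
  ∃ f : (Fin 3 → A.X) → A.X, IsPol A f ∧
    ∀ x y, f ![x, y, y] = f ![x, x, x] ∧ f ![x, x, x] = f ![y, y, x]

/-- Condition (S). -/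
def CondS (A : Str) : Prop :=
  ∀ n : ℕ, 1 ≤ n → ∃ f : (Fin (n + 1) → A.X) → A.X, IsPol A f ∧
    (∀ (x : A.X) (y : Fin n → A.X) (σ : Equiv.Perm (Fin n)),
      f (Fin.cons x y) = f (Fin.cons x (y ∘ σ))) ∧
    ∀ x₁ x₂ y : A.X, f (Fin.cons x₁ (fun _ => y)) = f (Fin.cons x₂ (fun _ => y))

/-- The structure of a permutation group. -/
def perm (G X : Type) [Group G] [Finite G] [Finite X] [MulAction G X] : Str where
  X := X
  fin := inferInstance
  ι := G
  finι := inferInstance
  ar _ := 2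
  rel g := {t | t 1 = g • t 0}

/-- `P₁ = ({0,1}; <)`. -/
def P1 : Str where
  X := Fin 2
  fin := inferInstance
  ι := Unit
  finι := inferInstance
  ar _ := 2
  rel _ := {t | t 0 < t 1}

end Pool.Agent.H.MP_f310dc_lc
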