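import Pool.Agent.H.MP_f310dc_lc.B
import Pool.Agent.H.MP_f310dc_lc.Defs

namespace Pool.Agent.H.MP_f310dc_lc
open Function

instance (A : Str) : Finite A.X := A.fin
instance (A : Str) : Finite A.ι := A.finι

def Pol (A : Str) : Mn where
  obj N := {f : (N → A.X) → A.X // IsPol A f}
  map α f := ⟨fun a => f.1 (a ∘ α), fun i r hr => f.2 i (r ∘ α) (fun _ => hr _)⟩
  map_id _ := rfl
  map_comp _ _ _ := rfl

def MH (M M' : Mn) : Prop :=
  ∃ ξ : ∀ N : Type, M.obj N → M'.obj N,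
    ∀ (N N' : Type) (α : N → N') (f : M.obj N), ξ N' (M.map α f) = M'.map α (ξ N f)

lemma MH.trans {M M' M'' : Mn} (h : MH M M') (h' : MH M' M'') : MH M M'' := by
  obtain ⟨ξ, h⟩ := h
  obtain ⟨ξ', h'⟩ := h'
  exact ⟨fun N f => ξ' N (ξ N f), fun N N' α f => by simp only [h, h']⟩

lemma sat_pol {A : Str} {N : Type} {f : (N → A.X) → A.X} (hf : IsPol A f) {V : Type}
    (φ : PP A V) : ∀ s : N → V → A.X, (∀ n, φ.Sat (s n)) → φ.Sat (fun v => f (fun n => s n v)) := by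
  induction φ with
  | rel i v => exact fun s hs => hf i (fun n => s n ∘ v) hs
  | eq a b => exact fun s hs => congrArg f (funext hs)
  | tru => exact fun _ _ => trivial
  | and φ ψ h1 h2 => exact fun s hs => ⟨h1 s (fun n => (hs n).1), h2 s (fun n => (hs n).2)⟩
  | ex φ ih =>
    intro s hs
    choose x hx using hs
    refine ⟨f x, ?_⟩
    have := ih _ hx
    convert this using 1
    funext o; cases o <;> rfl

lemma mh_of_ppc {A B : Str} (h : PPC A B) : MH (Pol A) (Pol B) := by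
  obtain ⟨V, _, φ, ψ, ⟨h, hh⟩, ⟨h', hh'⟩⟩ := h
  refine ⟨fun N f => ⟨fun b => h ⟨fun v => f.1 (fun n => (h' (b n)).1 v),
    sat_pol f.2 φ _ (fun n => (h' (b n)).2)⟩, fun i r hr => ?_⟩, fun N N' α f => rfl⟩
  exact hh i (fun j => ⟨fun v => f.1 (fun n => (h' (r n j)).1 v),
    sat_pol f.2 φ _ (fun n => (h' (r n j)).2)⟩)
    (sat_pol f.2 (ψ i) (fun n p => (h' (r n p.1)).1 p.2) (fun n => hh' i _ (hr n)))

def Df (A : Str) {V : Type} (S : (V → A.X) → Prop) : Prop := ∃ φ : PP A V, ∀ s, φ.Sat s ↔ S s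

lemma df_rename {A : Str} {V : Type} (φ : PP A V) : ∀ {V' : Type} (σ : V → V'),
    Df A (fun s : V' → A.X => φ.Sat (s ∘ σ)) := by
  induction φ with
  | rel i v => exact fun σ => ⟨.rel i (σ ∘ v), fun _ => Iff.rfl⟩
  | eq a b => exact fun σ => ⟨.eq (σ a) (σ b), fun _ => Iff.rfl⟩
  | tru => exact fun σ => ⟨.tru, fun _ => Iff.rfl⟩
  | and φ ψ h1 h2 =>
    intro V' σ
    obtain ⟨a, ha⟩ := h1 σ
    obtain ⟨b, hb⟩ := h2 σ
    exact ⟨.and a b, fun s => and_congr (ha s) (hb s)⟩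
  | ex φ ih =>
    intro V' σ
    obtain ⟨a, ha⟩ := ih (Option.map σ)
    refine ⟨.ex a, fun s => exists_congr fun x => (ha _).trans ?_⟩
    have : ((fun o : Option V' => o.elim x s) ∘ Option.map σ) = fun o => o.elim x (s ∘ σ) := by
      funext o; cases o <;> rfl
    simp only [this]

lemma Df.congr {A : Str} {V : Type} {S T : (V → A.X) → Prop} (h : Df A S) (e : ∀ s, S s ↔ T s) :
    Df A T := by
  obtain ⟨φ, h⟩ := h
  exact ⟨φ, fun s => (h s).trans (e s)⟩

lemma Df.rename {A : Str} {V V' : Type} {S : (V → A.X) → Prop} (h : Df A S) (σ : V → V') :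
    Df A (fun s : V' → A.X => S (s ∘ σ)) := by
  obtain ⟨φ, h⟩ := h
  exact (df_rename φ σ).congr (fun s => h _)

lemma Df.and {A : Str} {V : Type} {S T : (V → A.X) → Prop} (h : Df A S) (h' : Df A T) :
    Df A (fun s => S s ∧ T s) := by
  obtain ⟨φ, h⟩ := h
  obtain ⟨ψ, h'⟩ := h'
  exact ⟨.and φ ψ, fun s => and_congr (h s) (h' s)⟩

lemma df_forall {A : Str} {V : Type} (T : Type) [Finite T] :
    ∀ S : T → (V → A.X) → Prop, (∀ t, Df A (S t)) → Df A (fun s => ∀ t, S t s) := by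
  induction T using Finite.induction_empty_option with
  | of_equiv e ih =>
    intro S hS
    exact (ih (S ∘ e) (fun t => hS _)).congr (fun s => e.forall_congr_right (q := fun t => S t s))
  | h_empty => exact fun S _ => ⟨.tru, fun s => ⟨fun _ t => t.elim, fun _ => trivial⟩⟩
  | h_option ih =>
    intro S hS
    exact ((hS none).and (ih (fun t => S (some t)) (fun t => hS _))).congr
      (fun s => (Option.forall (p := fun t => S t s)).symm)

lemma df_exists {A : Str} (T : Type) [Finite T] :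
    ∀ {V : Type} (S : (V ⊕ T → A.X) → Prop), Df A S →
      Df A (fun s : V → A.X => ∃ w : T → A.X, S (Sum.elim s w)) := by
  induction T using Finite.induction_empty_option with
  | of_equiv e ih =>
    intro V S hS
    refine (ih _ (hS.rename (Sum.map id e.symm))).congr (fun s => ⟨fun ⟨w, hw⟩ => ⟨w ∘ e.symm, ?_⟩,
      fun ⟨w, hw⟩ => ⟨w ∘ e, ?_⟩⟩)
    · convert hw using 1
      funext o; cases o <;> rfl
    · convert hw using 1
      funext o; cases o <;> simp
  | h_empty =>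
    intro V S hS
    refine (hS.rename (Sum.elim id PEmpty.elim)).congr (fun s => ⟨fun h => ⟨PEmpty.elim, ?_⟩,
      fun ⟨w, hw⟩ => ?_⟩)
    · convert h using 1
      funext o; rcases o with o | o
      · rfl
      · exact o.elim
    · convert hw using 1
      funext o; rcases o with o | o
      · rfl
      · exact o.elim
  | @h_option T _ ih =>
    intro V S hS
    obtain ⟨φ, hφ⟩ := ih _ (hS.rename (V' := Option V ⊕ T)
      (Sum.elim (fun v => .inl (some v)) (fun o => o.elim (.inl none) .inr)))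
    refine ⟨.ex φ, fun s => ⟨fun ⟨x, hx⟩ => ?_, fun ⟨w, hw⟩ => ⟨w none, (hφ _).2
      ⟨w ∘ some, ?_⟩⟩⟩⟩
    · obtain ⟨w, hw⟩ := (hφ _).1 hx
      refine ⟨fun o => o.elim x w, ?_⟩
      convert hw using 1
      funext o; rcases o with o | _ | o <;> rfl
    · convert hw using 1
      funext o; rcases o with o | _ | o <;> rfl

lemma df_pol (A : Str) (N : Type) [Finite N] : Df A (fun f : (N → A.X) → A.X => IsPol A f) := by
  refine df_forall A.ι _ (fun i => ?_)
  refine (df_forall {r : N → Fin (A.ar i) → A.X // ∀ n, r n ∈ A.rel i}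
    (fun r f => (fun j => f (fun n => r.1 n j)) ∈ A.rel i) (fun r => ?_)).congr
    (fun f => Subtype.forall)
  exact ⟨.rel i (fun j n => r.1 n j), fun _ => Iff.rfl⟩

lemma ppc_of_mh {A B : Str} (h : MH (Pol A) (Pol B)) : PPC A B := by
  obtain ⟨ξ, hξ⟩ := h
  obtain ⟨φ, hφ⟩ := df_pol A B.X
  have : ∀ i : B.ι, Df A (fun s : Fin (B.ar i) × (B.X → A.X) → A.X =>
      ∃ w : (B.rel i → A.X) → A.X, IsPol A w ∧
        ∀ p : Fin (B.ar i) × (B.X → A.X), s p = w (fun r => p.2 (r.1 p.1))) := by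
    intro i
    refine df_exists _ (fun u => IsPol A (u ∘ Sum.inr) ∧ ∀ p : Fin (B.ar i) × (B.X → A.X),
      u (.inl p) = u (.inr (fun r : B.rel i => p.2 (r.1 p.1)))) (((df_pol A _).rename _).and ?_)
    exact df_forall _ _ (fun p => ⟨.eq (.inl p) (.inr (fun r : B.rel i => p.2 (r.1 p.1))),
      fun _ => Iff.rfl⟩)
  choose ψ hψ using this
  refine ⟨B.X → A.X, inferInstance, φ, ψ, ⟨fun f => (ξ B.X ⟨f.1, (hφ _).1 f.2⟩).1 id, ?_⟩,
    ⟨fun b => ⟨fun a => a b, (hφ _).2 (fun i r hr => hr b)⟩, ?_⟩⟩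
  · intro i t ht
    obtain ⟨w, hw, e⟩ := (hψ i _).1 ht
    have := (ξ _ ⟨w, hw⟩).2 i Subtype.val (fun r => r.2)
    convert this using 1
    funext j
    have e2 : (⟨(t j).1, (hφ _).1 (t j).2⟩ : (Pol A).obj B.X) =
        (Pol A).map (fun r : B.rel i => r.1 j) ⟨w, hw⟩ := Subtype.ext (funext fun a => e (j, a))
    simp only [comp_apply]
    rw [e2, hξ]
    rfl
  · intro i t ht
    exact (hψ i _).2 ⟨fun a => a ⟨t, ht⟩, fun i r hr => hr _, fun p => rfl⟩

lemma condM_of_mh {A B : Str} (h : MH (Pol A) (Pol B)) (hA : CondM A) : CondM B := by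
  obtain ⟨ξ, hξ⟩ := h
  obtain ⟨f, hf, e⟩ := hA
  have k : ∀ (X : Type) (a : Fin 2 → X) (i j k : Fin 2), a ∘ ![i, j, k] = ![a i, a j, a k] := by
    intro X a i j k
    funext l; fin_cases l <;> rfl
  have e1 : (Pol A).map ![(0 : Fin 2), 1, 1] ⟨f, hf⟩ = (Pol A).map ![0, 0, 0] ⟨f, hf⟩ :=
    Subtype.ext (funext fun a => by
      show f _ = f _
      rw [k, k]; exact (e _ _).1)
  have e2 : (Pol A).map ![(0 : Fin 2), 0, 0] ⟨f, hf⟩ = (Pol A).map ![1, 1, 0] ⟨f, hf⟩ :=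
    Subtype.ext (funext fun a => by
      show f _ = f _
      rw [k, k]; exact (e _ _).2)
  refine ⟨(ξ _ ⟨f, hf⟩).1, (ξ _ ⟨f, hf⟩).2, fun x y => ?_⟩
  have a1 := congrArg (fun t => (ξ _ t).1 ![x, y]) e1
  have a2 := congrArg (fun t => (ξ _ t).1 ![x, y]) e2
  simp only [hξ] at a1 a2
  constructor
  · refine Eq.trans ?_ (a1.trans ?_)
    · exact congrArg _ (k _ ![x, y] 0 1 1).symm
    · exact congrArg _ (k _ ![x, y] 0 0 0)
  · refine Eq.trans ?_ (a2.trans ?_)
    · exact congrArg _ (k _ ![x, y] 0 0 0).symm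
    · exact congrArg _ (k _ ![x, y] 1 1 0)

lemma comp_cons' {n : ℕ} {X Y : Type} (a : X → Y) (x : X) (y : Fin n → X) :
    a ∘ (Fin.cons x y : Fin (n + 1) → X) = Fin.cons (a x) (a ∘ y) := by
  funext i; exact Fin.cases rfl (fun _ => rfl) i

lemma condS_of_mh {A B : Str} (h : MH (Pol A) (Pol B)) (hA : CondS A) : CondS B := by
  obtain ⟨ξ, hξ⟩ := h
  intro n hn
  obtain ⟨f, hf, e, e'⟩ := hA n hn
  refine ⟨(ξ _ ⟨f, hf⟩).1, (ξ _ ⟨f, hf⟩).2, fun x y σ => ?_, fun x₁ x₂ y => ?_⟩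
  · have e1 : (Pol A).map (Fin.cons x y : Fin (n + 1) → B.X) ⟨f, hf⟩ =
        (Pol A).map (Fin.cons x (y ∘ σ) : Fin (n + 1) → B.X) ⟨f, hf⟩ :=
      Subtype.ext (funext fun a => by
        show f _ = f _
        rw [comp_cons', comp_cons']; exact e _ _ σ)
    have a1 := congrArg (fun t => (ξ _ t).1 id) e1
    simp only [hξ] at a1
    exact a1
  · have e1 : (Pol A).map (Fin.cons x₁ (fun _ => y) : Fin (n + 1) → B.X) ⟨f, hf⟩ =
        (Pol A).map (Fin.cons x₂ (fun _ => y) : Fin (n + 1) → B.X) ⟨f, hf⟩ :=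
      Subtype.ext (funext fun a => by
        show f _ = f _
        rw [comp_cons', comp_cons']; exact e' _ _ _)
    have a1 := congrArg (fun t => (ξ _ t).1 id) e1
    simp only [hξ] at a1
    exact a1

end Pool.Agent.H.MP_f310dc_lc
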