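import Pool.Agent.H.MP_f310dc_lc.C

namespace Pool.Agent.H.MP_f310dc_lc
open Function

section easy
open Classical

noncomputable def mm {X : Type} (a : Fin 3 → X) : X := if a 0 = a 1 then a 2 else a 0

noncomputable def ff {X : Type} (n : ℕ) (a : Fin (n + 2) → X) : X :=
  if ∀ i : Fin (n + 1), a i.succ = a 1 then a 1 else a 0

lemma conds {A : Str} (h : ∀ (N : Type) (f : (N → A.X) → A.X),
    (∀ x, f (fun _ => x) = x) → (∀ k : A.X → A.X, Injective k → ∀ a, f (k ∘ a) = k (f a)) →
      IsPol A f) : CondM A ∧ CondS A := by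
  constructor
  · refine ⟨mm, h _ _ (fun x => by simp [mm]) (fun k hk a => ?_), fun x y => ⟨?_, ?_⟩⟩
    · simp only [mm, comp_apply, hk.eq_iff]
      split_ifs <;> rfl
    · simp only [mm]
      split_ifs with h1 h2 <;> simp_all
    · simp [mm]
  · intro n hn
    obtain ⟨n, rfl⟩ : ∃ m, n = m + 1 := ⟨n - 1, by omega⟩
    refine ⟨ff n, h _ _ (fun x => by simp [ff]) (fun k hk a => ?_), fun x y σ => ?_,
      fun x₁ x₂ y => ?_⟩
    · simp only [ff, comp_apply, hk.eq_iff]
      split_ifs <;> rfl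
    · have e1 : ∀ z : Fin (n + 1) → A.X, (Fin.cons x z : Fin (n + 2) → A.X) 1 = z 0 :=
        fun z => rfl
      simp only [ff, Fin.cons_succ, Fin.cons_zero, e1, comp_apply]
      by_cases h1 : ∀ i, y i = y 0
      · rw [if_pos h1, if_pos (fun i => (h1 _).trans (h1 _).symm), h1 (σ 0)]
      · rw [if_neg h1, if_neg]
        intro h2
        apply h1
        intro i
        rw [← σ.apply_symm_apply i, h2, ← h2 (σ.symm 0), σ.apply_symm_apply]
    · have e1 : ∀ x : A.X, (Fin.cons x (fun _ => y) : Fin (n + 2) → A.X) 1 = y := fun z => rfl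
      simp [ff, e1]

end easy

lemma pol_perm {G X : Type} [Group G] [Finite G] [Finite X] [MulAction G X] {N : Type}
    (f : (N → X) → X) : IsPol (perm G X) f ↔ ∀ (g : G) a, f (fun n => g • a n) = g • f a := by
  constructor
  · intro h g a
    exact h g (fun n => ![a n, g • a n]) (fun n => rfl)
  · intro h (g : G) (r : N → Fin 2 → X) hr
    have : (fun n => r n 1) = fun n => g • r n 0 := funext hr
    show f (fun n => r n 1) = g • f (fun n => r n 0)
    rw [← h, ← this]

lemma pol_P1 {N : Type} (f : (N → Fin 2) → Fin 2) :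
    IsPol P1 f ↔ f (fun _ => 0) = 0 ∧ f (fun _ => 1) = 1 := by
  have k : ∀ a b : Fin 2, a < b ↔ a = 0 ∧ b = 1 := by decide
  constructor
  · intro h
    exact (k _ _).1 (h () (fun _ => (![0, 1] : Fin 2 → Fin 2)) (fun _ => (k _ _).2 ⟨rfl, rfl⟩))
  · intro h i r hr
    have e0 : (fun n => r n (0 : Fin 2)) = fun _ => (0 : Fin 2) :=
      funext fun n => ((k _ _).1 (hr n)).1
    have e1 : (fun n => r n (1 : Fin 2)) = fun _ => (1 : Fin 2) :=
      funext fun n => ((k _ _).1 (hr n)).2
    exact (k _ _).2 ⟨(congrArg f e0).trans h.1, (congrArg f e1).trans h.2⟩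

lemma conds_perm (G X : Type) [Group G] [Finite G] [Finite X] [MulAction G X] :
    CondM (perm G X) ∧ CondS (perm G X) :=
  conds (fun _ f _ h => (pol_perm (G := G) (X := X) f).2 (fun g a => h (fun x : X => g • x)
    (MulAction.injective (β := X) g) a))

lemma conds_P1 : CondM P1 ∧ CondS P1 :=
  conds (fun _ f h _ => (pol_P1 f).2 ⟨h _, h _⟩)

def IsEnd (A : Str) (h : A.X → A.X) : Prop := ∀ i t, t ∈ A.rel i → h ∘ t ∈ A.rel i

lemma exists_core (A : Str) : ∃ A' : Str, MH (Pol A) (Pol A') ∧ MH (Pol A') (Pol A) ∧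
    ∀ h, IsEnd A' h → Bijective h := by
  classical
  have ex : ∃ n, ∃ e, IsEnd A e ∧ (Set.range e).ncard = n := ⟨_, id, fun _ _ h => h, rfl⟩
  obtain ⟨e, he, hn⟩ := Nat.find_spec ex
  have mn : ∀ e', IsEnd A e' → (Set.range e).ncard ≤ (Set.range e').ncard :=
    fun e' h' => hn ▸ Nat.find_min' ex ⟨e', h', rfl⟩
  refine ⟨⟨Set.range e, inferInstance, A.ι, inferInstance, A.ar,
    fun i => {t | Subtype.val ∘ t ∈ A.rel i}⟩,
    ⟨fun N f => ⟨fun a => Set.rangeFactorization e (f.1 (Subtype.val ∘ a)), fun i r hr =>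
      he i _ (f.2 i (fun n => Subtype.val ∘ r n) hr)⟩, fun _ _ _ _ => rfl⟩,
    ⟨fun N f => ⟨fun a => (f.1 (Set.rangeFactorization e ∘ a)).1, fun i r hr =>
      f.2 i (fun n => Set.rangeFactorization e ∘ r n) (fun n => he i _ (hr n))⟩,
      fun _ _ _ _ => rfl⟩, fun h hh => ?_⟩
  have := mn (Subtype.val ∘ h ∘ Set.rangeFactorization e)
    (fun i t ht => hh i (Set.rangeFactorization e ∘ t) (he i t ht))
  rw [Set.range_comp, Set.ncard_image_of_injective _ Subtype.val_injective,
    Set.rangeFactorization_surjective.range_comp] at this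
  rw [← Finite.surjective_iff_bijective, ← Set.range_eq_univ]
  refine Set.eq_of_subset_of_ncard_le (Set.subset_univ _) ?_
  rw [Set.ncard_univ]
  exact this

lemma isEnd_symm {A : Str} (σ : Equiv.Perm A.X) (h : IsEnd A σ) : IsEnd A σ.symm := by
  have hp : ∀ k : ℕ, IsEnd A ⇑(σ ^ k) := by
    intro k
    induction k with
    | zero => exact fun _ _ h => h
    | succ k ih =>
      rw [pow_succ']
      exact fun i t ht => h i _ (ih i t ht)
  have : σ⁻¹ ∈ Submonoid.powers σ :=
    mem_powers_iff_mem_zpowers.2 (Subgroup.inv_mem _ (Subgroup.mem_zpowers σ))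
  obtain ⟨k, hk⟩ := this
  have := hp k
  simp only at hk
  rw [hk] at this
  exact this

def Idm (A : Str) : Mn where
  obj N := {f : (N → A.X) → A.X // IsPol A f ∧ ∀ x, f (fun _ => x) = x}
  map α f := ⟨fun a => f.1 (a ∘ α), fun i r hr => f.2.1 i (r ∘ α) (fun _ => hr _), f.2.2⟩
  map_id _ := rfl
  map_comp _ _ _ := rfl

noncomputable def idem {A : Str} (hc : ∀ h, IsEnd A h → Bijective h) {N : Type}
    (t : (Pol A).obj N) : (Idm A).obj N :=
  have he : IsEnd A (fun x => t.1 (fun _ => x)) := fun i r hr => t.2 i (fun _ => r) (fun _ => hr)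
  ⟨fun a => (Equiv.ofBijective _ (hc _ he)).symm (t.1 a),
    fun i r hr => isEnd_symm (Equiv.ofBijective _ (hc _ he)) he i _ (t.2 i r hr),
    fun x => (Equiv.ofBijective _ (hc _ he)).symm_apply_apply x⟩

lemma idem_congr {A : Str} (hc : ∀ h, IsEnd A h → Bijective h) {N : Type}
    (t : (Pol A).obj N) {a b : N → A.X} (h : t.1 a = t.1 b) : (idem hc t).1 a = (idem hc t).1 b :=
  congrArg (Equiv.ofBijective _ (hc (fun x => t.1 (fun _ => x))
    (fun i r hr => t.2 i (fun _ => r) (fun _ => hr)))).symm h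

lemma mh_idem {A : Str} (hc : ∀ h, IsEnd A h → Bijective h) : MH (Pol A) (Idm A) :=
  ⟨fun _ t => idem hc t, fun _ _ _ _ => rfl⟩

lemma pol_comp {A : Str} {N N' : Type} {f : (N → A.X) → A.X} (hf : IsPol A f)
    {g : N → (N' → A.X) → A.X} (hg : ∀ n, IsPol A (g n)) :
    IsPol A (fun a => f (fun n => g n a)) :=
  fun i r hr => hf i (fun n j => g n (fun n' => r n' j)) (fun n => hg n i r hr)

lemma pol_pr {A : Str} {N : Type} (x : N) : IsPol A (fun a : N → A.X => a x) :=
  fun _ _ hr => hr x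

lemma pol3 {A : Str} {N : Type} {f : (Fin 3 → A.X) → A.X} (hf : IsPol A f)
    {u v w : (N → A.X) → A.X} (hu : IsPol A u) (hv : IsPol A v) (hw : IsPol A w) :
    IsPol A (fun a => f ![u a, v a, w a]) := by
  have := pol_comp hf (g := ![u, v, w]) (fun n => by fin_cases n <;> assumption)
  convert this using 3 with a
  funext n; fin_cases n <;> rfl

lemma polF {A : Str} {N : Type} {n : ℕ} {f : (Fin (n + 1) → A.X) → A.X} (hf : IsPol A f)
    {u : (N → A.X) → A.X} {v : Fin n → (N → A.X) → A.X} (hu : IsPol A u)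
    (hv : ∀ k, IsPol A (v k)) : IsPol A (fun a => f (Fin.cons (u a) (fun k => v k a))) := by
  have := pol_comp hf (g := Fin.cons u v) (fun n => Fin.cases hu hv n)
  convert this using 3 with a
  funext n; exact Fin.cases rfl (fun _ => rfl) n

structure Dat (A : Str) where
  m : (Idm A).obj (Fin 3)
  m1 : ∀ x y, m.1 ![x, y, y] = x
  m2 : ∀ x y, m.1 ![y, y, x] = x
  F : ∀ n, (Idm A).obj (Fin (n + 2))
  Fs : ∀ n x (u : Fin (n + 1) → A.X) (σ : Equiv.Perm (Fin (n + 1))),
    (F n).1 (Fin.cons x (u ∘ σ)) = (F n).1 (Fin.cons x u)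
  Fg : ∀ n x y, (F n).1 (Fin.cons x (fun _ => y)) = y

lemma exists_dat {A : Str} (hc : ∀ h, IsEnd A h → Bijective h) (hM : CondM A) (hS : CondS A) :
    Nonempty (Dat A) := by
  obtain ⟨m, hm, e⟩ := hM
  choose F hF e1 e2 using fun n => hS (n + 1) (by omega)
  have k : ∀ x : A.X, ![x, x, x] = fun _ => x := fun x => by
    funext i; fin_cases i <;> rfl
  refine ⟨⟨idem hc ⟨m, hm⟩, fun x y => ?_, fun x y => ?_, fun n => idem hc ⟨F n, hF n⟩,
    fun n x u σ => idem_congr hc _ (e1 n x u σ).symm, fun n x y => ?_⟩⟩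
  · rw [idem_congr hc ⟨m, hm⟩ (e x y).1, k]
    exact (idem hc _).2.2 x
  · rw [idem_congr hc ⟨m, hm⟩ (e x y).2.symm, k]
    exact (idem hc _).2.2 x
  · rw [idem_congr hc ⟨F n, hF n⟩ (e2 n x y y)]
    have : (Fin.cons y (fun _ => y) : Fin (n + 2) → A.X) = fun _ => y := by
      funext i; exact Fin.cases rfl (fun _ => rfl) i
    rw [this]
    exact (idem hc _).2.2 y

lemma exists_maj {A : Str} (D : Dat A) : ∃ j : (Idm A).obj (Fin 3), ∀ x y,
    j.1 ![x, x, y] = x ∧ j.1 ![x, y, x] = x ∧ j.1 ![y, x, x] = x := by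
  obtain ⟨i, d, hd⟩ : ∃ i d : ℕ, ∀ τ : A.X → A.X, τ^[i + d + 1] = τ^[i] := by
    obtain ⟨a, b, hab, e⟩ :=
      Finite.exists_ne_map_eq_of_infinite (fun (n : ℕ) (τ : A.X → A.X) => τ^[n])
    rcases lt_or_gt_of_ne hab with h | h
    · exact ⟨a, b - a - 1, fun τ => by
        rw [show a + (b - a - 1) + 1 = b by omega]; exact (congrFun e τ).symm⟩
    · exact ⟨b, a - b - 1, fun τ => by
        rw [show b + (a - b - 1) + 1 = a by omega]; exact congrFun e τ⟩
  let τ : A.X → A.X → A.X → A.X := fun y z u => D.m.1 ![u, y, z]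
  let G : A.X → A.X → A.X → A.X := fun u y z =>
    (D.F d).1 (Fin.cons y (fun k : Fin (d + 1) => (τ y z)^[i + k] u))
  have pτ : ∀ (k : ℕ) (l : Fin 3), IsPol A (fun a : Fin 3 → A.X => (τ (a 1) (a 2))^[k] (a l)) := by
    intro k l
    induction k with
    | zero => exact pol_pr l
    | succ k ih =>
      simp only [iterate_succ_apply']
      exact pol3 D.m.2.1 ih (pol_pr 1) (pol_pr 2)
  have pG : ∀ l : Fin 3, IsPol A (fun a : Fin 3 → A.X => G (a l) (a 1) (a 2)) := fun l =>
    polF (D.F d).2.1 (pol_pr 1) (fun k => pτ _ l)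
  have g1 : ∀ u y, G u y y = u := by
    intro u y
    have : τ y y = id := funext fun u => D.m1 u y
    simp only [G, this, iterate_id, id]
    exact D.Fg d y u
  have g2 : ∀ x y, G y y x = G x y x := by
    intro x y
    have e : τ y x y = x := D.m2 x y
    simp only [G]
    rw [← D.Fs d y _ (finRotate (d + 1))]
    refine congrArg (fun z => (D.F d).1 (Fin.cons y z)) (funext fun k => ?_)
    have e2 : (τ y x)^[i + k] x = (τ y x)^[i + k + 1] y := by
      rw [iterate_succ_apply, e]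
    rw [e2, comp_apply, finRotate_succ_apply]
    refine Fin.lastCases ?_ (fun k => ?_) k
    · rw [Fin.last_add_one, Fin.val_last, hd]
      rfl
    · simp [add_assoc]
  have key : ∀ x y, D.m.1 ![G x x y, G x x y, x] = x ∧ D.m.1 ![G y y x, G x y x, x] = x ∧
      D.m.1 ![G x x x, G y x x, y] = x := fun x y =>
    ⟨D.m2 _ _, by rw [g2]; exact D.m2 _ _, by rw [g1, g1]; exact D.m1 _ _⟩
  exact ⟨⟨fun a => D.m.1 ![G (a 1) (a 1) (a 2), G (a 0) (a 1) (a 2), a 0],
    pol3 D.m.2.1 (pG 1) (pG 0) (pol_pr 0), fun x => (key x x).1⟩, key⟩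

lemma comp3 {X Y : Type} (a : X → Y) (x y z : X) : a ∘ ![x, y, z] = ![a x, a y, a z] := by
  funext l; fin_cases l <;> rfl

noncomputable def mkCl {A : Str} (D : Dat A) : Cl where
  toMn := Idm A
  pr x := ⟨fun a => a x, pol_pr x, fun _ => rfl⟩
  map_pr _ _ := rfl
  m := D.m
  m1 x y := Subtype.ext (funext fun a => (congrArg D.m.1 (comp3 a _ _ _)).trans (D.m1 _ _))
  m2 x y := Subtype.ext (funext fun a => (congrArg D.m.1 (comp3 a _ _ _)).trans (D.m2 _ _))
  j := (exists_maj D).choose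
  j1 x y := Subtype.ext (funext fun a => (congrArg (exists_maj D).choose.1 (comp3 a _ _ _)).trans
    ((exists_maj D).choose_spec _ _).1)
  j2 x y := Subtype.ext (funext fun a => (congrArg (exists_maj D).choose.1 (comp3 a _ _ _)).trans
    ((exists_maj D).choose_spec _ _).2.1)
  j3 x y := Subtype.ext (funext fun a => (congrArg (exists_maj D).choose.1 (comp3 a _ _ _)).trans
    ((exists_maj D).choose_spec _ _).2.2)
  F := D.F
  Fs n x u σ := Subtype.ext (funext fun a => (congrArg (D.F n).1 (comp_cons' a _ _)).trans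
    ((D.Fs n _ (a ∘ u) σ).trans (congrArg (D.F n).1 (comp_cons' a _ _)).symm))
  Fg n x y := Subtype.ext (funext fun a => (congrArg (D.F n).1 (comp_cons' a _ _)).trans
    (D.Fg n _ _))
  fin N _ := inferInstanceAs (Finite {f : (N → A.X) → A.X // _})

noncomputable def algA {A : Str} (D : Dat A) : Alg (mkCl D) :=
  ⟨A.X, inferInstance, fun t => t.1 id, fun _ => rfl⟩

noncomputable def algR {A : Str} (D : Dat A) (i : A.ι) : Alg (mkCl D) :=
  ⟨A.rel i, inferInstance, fun t => ⟨fun j => t.1 (fun r => r.1 j),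
    t.2.1 i Subtype.val (fun r => r.2)⟩, fun _ => rfl⟩

lemma mh_of_natl {A : Str} (D : Dat A) {M : Mn} {n0 : ℕ} (h1 : Nat.card A.X ≤ n0)
    (h2 : ∀ i, Nat.card (A.rel i) ≤ n0) (h : ∃ φ, Natl (mkCl D) M n0 φ) : MH M (Pol A) := by
  obtain ⟨φ, hφ⟩ := h
  refine ⟨fun N f => ⟨fun a => φ (algA D) (M.map a f), fun i r hr => ?_⟩, fun N N' α f => ?_⟩
  · have := (φ (algR D i) (M.map (fun n => ⟨r n, hr n⟩) f)).2
    convert this using 1
    funext j
    have := hφ (algR D i) (algA D) (fun r => r.1 j) (fun _ => rfl) (h2 i) h1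
      (M.map (fun n => ⟨r n, hr n⟩) f)
    rw [M.map_comp] at this
    exact this.symm
  · exact Subtype.ext (funext fun a => congrArg (φ (algA D)) (M.map_comp _ _ _))

abbrev Concl (A : Str) : Prop :=
  (∃ (G X : Type) (_ : Group G) (_ : Finite G) (_ : Finite X) (_ : MulAction G X),
    MH (Pol A) (Pol (perm G X)) ∧ MH (Pol (perm G X)) (Pol A)) ∨
  (MH (Pol A) (Pol P1) ∧ MH (Pol P1) (Pol A))

lemma main_nt {A : Str} [Nontrivial A.X] (hc : ∀ h, IsEnd A h → Bijective h) (D : Dat A) :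
    Concl A := by
  classical
  obtain ⟨n1, hn1⟩ := (Set.finite_range (fun i => Nat.card (A.rel i))).bddAbove
  let n0 := max n1 (Nat.card A.X)
  have h1 : Nat.card A.X ≤ n0 := le_max_right _ _
  have h2 : ∀ i, Nat.card (A.rel i) ≤ n0 := fun i => (hn1 ⟨i, rfl⟩).trans (le_max_left _ _)
  by_cases hfix : ∀ j : J (mkCl D) n0, ∃ c : (Rep j).W, ∀ γ : Aut (Rep j), γ.1 c = c
  · right
    choose c hc' using hfix
    constructor
    · refine (mh_idem hc).trans ?_
      obtain ⟨p, q, hpq⟩ := exists_pair_ne A.X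
      refine ⟨fun N t => ⟨fun a : N → Fin 2 => if t.1 (![p, q] ∘ a) = p then (0 : Fin 2) else (1 : Fin 2),
        (pol_P1 _).2 ⟨if_pos (t.2.2 p), if_neg ?_⟩⟩, fun _ _ _ _ => rfl⟩
      exact fun h => hpq (h.symm.trans (t.2.2 q))
    · refine mh_of_natl D h1 h2 (core2 (fun B g h => ?_) n0 (fun j _ => c j)
        (fun j γ _ => (hc' j γ).symm))
      have := congrArg (fun t => t.1 id) (h (Fin 2) (fun _ => 0) (fun _ => 1) (fun _ h => h.elim))
      have h3 := (pol_P1 _).1 g.2
      exact absurd (h3.1.symm.trans (Eq.trans this h3.2)) (by decide)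
  · left
    push Not at hfix
    obtain ⟨j0, hj0⟩ := hfix
    let G := ∀ j : J (mkCl D) n0, Aut (Rep j)
    let X := ∀ j : J (mkCl D) n0, (Rep j).W
    let c0 : X := fun j => (0 : Fin (j.1 + 1))
    have act : ∀ (j : J (mkCl D) n0) (γ : Aut (Rep j)) (z : X),
        ((Pi.mulSingle j γ : G) • z) j = γ.1 (z j) := by
      intro j γ z
      show (Pi.mulSingle j γ : G) j • z j = _
      rw [Pi.mulSingle_eq_same]
      rfl
    have act' : ∀ (j : J (mkCl D) n0) (γ : Aut (Rep j)) (z : X) j', j' ≠ j →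
        ((Pi.mulSingle j γ : G) • z) j' = z j' := by
      intro j γ z j' hj
      show (Pi.mulSingle j γ : G) j' • z j' = _
      rw [Pi.mulSingle_eq_of_ne hj, one_smul]
    refine ⟨G, X, inferInstance, inferInstance, inferInstance, Pi.mulAction', ?_, ?_⟩
    · refine (mh_idem hc).trans ⟨fun N t => ⟨fun (a : N → X) j =>
        (Rep j).e ((mkCl D).map (fun n => a n j) t), (pol_perm _).2 (fun g a => ?_)⟩,
        fun N N' α t => rfl⟩
      funext j
      exact ((g j).2 ((mkCl D).map (fun n => a n j) t)).symm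
    · refine mh_of_natl D h1 h2 (core2 (fun B g h => ?_) n0
        (fun j h => h.1 (fun w => update c0 j w) j) (fun j γ h => ?_))
      · obtain ⟨γ, hγ⟩ := hj0 (g.1 (fun _ => c0) j0)
        apply hγ
        have e1 := (pol_perm _).1 g.2 (Pi.mulSingle j0 γ : G) (fun _ => c0)
        have e2 := congrArg (fun t => t.1 id) (h X (fun _ => (Pi.mulSingle j0 γ : G) • c0)
          (fun _ => c0) (fun _ h => h.elim))
        have e3 := congrFun (e1.symm.trans e2) j0
        exact (act j0 γ _).symm.trans e3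
      · have e1 := congrFun ((pol_perm _).1 h.2 (Pi.mulSingle j γ : G) (fun w => update c0 j w)) j
        refine Eq.trans ?_ (e1.trans (act j γ _))
        refine congrArg (fun z => h.1 z j) ?_
        funext w j'
        by_cases hj : j' = j
        · subst hj
          refine Eq.trans ?_ (act j' γ _).symm
          exact (update_self (β := fun j => (Rep j).W) _ _ _).trans
            (congrArg γ.1 (update_self (β := fun j => (Rep j).W) _ _ _).symm)
        · refine Eq.trans ?_ (act' j γ _ j' hj).symm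
          exact (update_of_ne (β := fun j => (Rep j).W) hj _ _).trans
            (update_of_ne (β := fun j => (Rep j).W) hj _ _).symm

lemma main_core {A : Str} (hc : ∀ h, IsEnd A h → Bijective h) (hM : CondM A) (hS : CondS A) :
    Concl A := by
  obtain ⟨D⟩ := exists_dat hc hM hS
  rcases subsingleton_or_nontrivial A.X with hs | hs
  swap
  · exact main_nt hc D
  left
  by_cases h0 : ∃ c : A.X, ∀ i, (fun _ => c) ∈ A.rel i
  · obtain ⟨c, hc⟩ := h0
    exact ⟨Unit, Unit, inferInstance, inferInstance, inferInstance, inferInstance,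
      ⟨fun N _ => ⟨fun _ => (), (pol_perm _).2 (fun _ _ => rfl)⟩, fun _ _ _ _ => rfl⟩,
      ⟨fun N _ => ⟨fun _ => c, fun i _ _ => hc i⟩, fun _ _ _ _ => rfl⟩⟩
  · have ne1 : ∀ (N : Type) (t : (Pol A).obj N), Nonempty N := by
      intro N t
      by_contra h
      haveI : IsEmpty N := not_nonempty_iff.1 h
      refine h0 ⟨t.1 isEmptyElim, fun i => ?_⟩
      have := t.2 i isEmptyElim (fun n => isEmptyElim n)
      exact (Subsingleton.elim (fun _ => t.1 isEmptyElim : Fin (A.ar i) → A.X) _) ▸ this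
    have ne2 : ∀ (N : Type) (f : (N → Empty) → Empty), Nonempty N := by
      intro N f
      by_contra h
      haveI : IsEmpty N := not_nonempty_iff.1 h
      exact (f isEmptyElim).elim
    exact ⟨Equiv.Perm Empty, Empty, inferInstance, inferInstance, inferInstance, inferInstance,
      ⟨fun N t => ⟨fun a => a (ne1 N t).some, pol_pr _⟩,
        fun _ N' α t => Subtype.ext (funext fun a => (a (ne1 N' ((Pol A).map α t)).some).elim)⟩,
      ⟨fun N f => ⟨fun a => a (ne2 N f.1).some, pol_pr _⟩,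
        fun _ _ _ _ => Subtype.ext (funext fun _ => Subsingleton.elim _ _)⟩⟩

theorem main (A : Str) : (CondM A ∧ CondS A) ↔
    ((∃ (G X : Type) (_ : Group G) (_ : Finite G) (_ : Finite X) (_ : MulAction G X),
      Inter A (perm G X)) ∨ Inter A P1) := by
  constructor
  · rintro ⟨hM, hS⟩
    obtain ⟨A', h1, h2, hc⟩ := exists_core A
    rcases main_core hc (condM_of_mh h1 hM) (condS_of_mh h1 hS) with
      ⟨G, X, i1, i2, i3, i4, h3, h4⟩ | ⟨h3, h4⟩
    · exact Or.inl ⟨G, X, i1, i2, i3, i4, ppc_of_mh (h1.trans h3), ppc_of_mh (h4.trans h2)⟩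
    · exact Or.inr ⟨ppc_of_mh (h1.trans h3), ppc_of_mh (h4.trans h2)⟩
  · rintro (⟨G, X, i1, i2, i3, i4, -, h⟩ | ⟨-, h⟩)
    · exact ⟨condM_of_mh (mh_of_ppc h) (conds_perm G X).1,
        condS_of_mh (mh_of_ppc h) (conds_perm G X).2⟩
    · exact ⟨condM_of_mh (mh_of_ppc h) conds_P1.1, condS_of_mh (mh_of_ppc h) conds_P1.2⟩

end Pool.Agent.H.MP_f310dc_lc
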